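import Pool.Agent.Helper19.YV.Deg

/-!
# MP_09799c_ag: `G_ℓ` for all lifts to characteristic 0 of `B_1 × ... × B_k × C`, for almost all
isogeny classes `B_i` (exponential saving, uniform in `q`) and all `C` whose Frobenius field does not
contain the one of a `B_i`

`traceSet q g` is the set of the monic integral polynomials `h` of degree `g` all of whose complex
roots are real numbers in `[-2 √q, 2 √q]`, `frob q h = T^g h(T + q/T)` is the corresponding
Frobenius (Weil) polynomial, `splitF R` is the field generated over `ℚ` by the roots of `R`.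

`RelLefschetzF q h`: for every symplectic space `(V, ψ)` over `ℂ`, every group `G` of similitudes of
`ψ` such that `V` is semisimple over the Lie algebra `L` of the Zariski closure of `G`, every
`N ≥ 1`, every nonzero integral polynomial `R`, and every semisimple `γ` in `G` with multiplier
`q ^ N` and characteristic polynomial `R * ∏ (T - z ^ N)`, the product over the roots `z` of all
`frob q (h i)`: let `V₁` be the smallest `L`-stable subspace which contains the eigenvectors of
`γ` for all `z ^ N`, `z` a root of a `frob q (h i)` whose roots are not all in `splitF R`.  Then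
`V` is the orthogonal direct sum of `V₁` and `V₂`, and `L` is the Lie algebra of all
infinitesimal similitudes which commute with `End_L(V)` and coincide on `V₂` with an element of
`L`.

There are absolute constants `d > 0` and `G` such that for all `q ≥ 16`, all primes `p`, all `k`,
all degrees `g_1, ..., g_k` and all sets `S_i ⊆ traceSet q g_i` which contain all `h` in
`traceSet q g_i` with `p ∤ h(0)` (the ordinary ones), with `S = S_1 × ... × S_k`:
(1) if `m ≥ G`, `1 ≤ B ≤ m ^ (4/5)`, `k ≤ m ^ B` and all degrees are between `m` and `m ^ B`, then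
all but at most `k q ^ (- d m / B) #S` elements of `S` are `RelLefschetzF` and have
`[splitF (frob q h_i) : ℚ] ≥ 2 ^ g_i` for all `i`;
(2) if `p` divides `q` and `g_i ≥ G`, then the elements of `S` which are not `RelLefschetzF` make
up at least a share `q ^ (- 8 g_i)` of `S`.

(2): `h_i = (X - 1) (X³ + 2 X² - 3 q X - (5 q + 1)) u`, and `frob q h_i` is a multiple of
`(T² - T + q) Q Q'`, `Q = T³ + T² - π T - q π`, `π` a root of `T² - T + q`: the roots of `Q` have the
product `q π = π² (q / π)` (an elliptic curve and an ordinary threefold with an exotic class), and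
the torus of all diagonal similitudes with this relation is a group `G` as above.
-/

open Polynomial

namespace Pool.Agent.Results.MP_09799c_ag.AlmostAllLiftsExponential

open Pool.Agent.Helper84.AA (traceSet frob)
open Pool.Agent.Helper19.AAR (splitF)
open Pool.Agent.Helper83.YV (RelLefschetzF)

theorem result : ∃ d : ℝ, 0 < d ∧ ∃ G : ℕ, ∀ q : ℕ, 16 ≤ q → ∀ p : ℕ, p.Prime →
    ∀ (k : ℕ) (g : Fin k → ℕ) (S : Fin k → Set ℤ[X]),
      (∀ i, {h ∈ traceSet q (g i) | ¬ (p : ℤ) ∣ h.coeff 0} ⊆ S i ∧ S i ⊆ traceSet q (g i)) →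
    (∀ m ≥ G, ∀ B : ℝ, 1 ≤ B → B ≤ (m : ℝ) ^ (4 / 5 : ℝ) → (k : ℝ) ≤ (m : ℝ) ^ B →
      (∀ i, m ≤ g i ∧ (g i : ℝ) ≤ (m : ℝ) ^ B) →
      (({h : Fin k → ℤ[X] | (∀ i, h i ∈ S i) ∧ ¬ (RelLefschetzF q h ∧
        ∀ i, 2 ^ g i ≤ Module.finrank ℚ (splitF (frob q (h i))))}.ncard : ℕ) : ℝ) ≤
        (k : ℝ) * (q : ℝ) ^ (-(d * m / B)) *
        (({h : Fin k → ℤ[X] | ∀ i, h i ∈ S i}.ncard : ℕ) : ℝ)) ∧
    (p ∣ q → ∀ i, G ≤ g i →
      (({h : Fin k → ℤ[X] | ∀ j, h j ∈ S j}.ncard : ℕ) : ℝ) ≤ (q : ℝ) ^ (8 * g i) *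
      (({h : Fin k → ℤ[X] | (∀ j, h j ∈ S j) ∧ ¬ RelLefschetzF q h}.ncard : ℕ) : ℝ)) := by
  obtain ⟨d, hd, G, hG⟩ := Pool.Agent.Helper19.YV.lefschetz_upperD
  obtain ⟨G', hG'⟩ := Pool.Agent.Helper19.YV.lefschetz_lower
  refine ⟨d, hd, max G G', fun q hq p hp k g S hS =>
    ⟨fun m hm B hB1 hB2 hk hg => ?_, fun hpq i hi => ?_⟩⟩
  · exact hG q hq p hp k m ((le_max_left _ _).trans hm) B hB1 hB2 hk g hg S hS
  · exact hG' q hq p hp hpq k g i ((le_max_right _ _).trans hi) S hS

end Pool.Agent.Results.MP_09799c_ag.AlmostAllLiftsExponential
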