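import Pool.Agent.Helper60.BP.Main
import Pool.Agent.Helper60.BP.GenHalf

/-!
# MP_09799c_ag: one place of bad reduction

`V` is a finite-dimensional symplectic space over an algebraically closed field of characteristic
zero, `g` is a Lie algebra of symplectic similitudes of `V` acting irreducibly. `g` contains an
idempotent `e` other than `0` and `1`, and a nonzero element `N` of square zero, such that every
ideal of `g` which contains `N` contains all the commutators of `g`.

Then `g` contains the whole symplectic Lie algebra of `(V, ψ)`, unless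

* the dimension `d` of `V` is `2 ^ m`, where `m ≥ 5` is `1` or `2` modulo `4`, and the rank `r` of
  `N` is `d / 4` or `d / 2`, or
* `d = (2 k).choose k` and `r = (2 k - 2).choose (k - 1)` for an odd `k ≥ 3`.

The exceptions occur: spin representations and the `k`-th exterior power of the standard
representation of `sl_{2k}`. The proof is elementary and uses no classification of Lie algebras or
of their representations.

In the application `g` is the Lie algebra of the `ℓ`-adic monodromy group of an abelian variety
without extra endomorphisms, `e` is a (weak) Hodge cocharacter, for instance the Hodge-Tate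
operator, and `N` is the logarithm of the local monodromy at a place of semistable reduction of
toric rank `r > 0`.
-/

namespace Pool.Agent.Results.MP_09799c_ag.BadPlace

open Pool.Agent.Helper66.OTR Pool.Agent.Helper60.BP

theorem result {K V : Type*} [Field K] [IsAlgClosed K] [CharZero K] [AddCommGroup V] [Module K V]
    [FiniteDimensional K V] [Nontrivial V]
    -- a symplectic form
    (ψ : LinearMap.BilinForm K V) (hnd : ψ.Nondegenerate) (halt : ∀ x, ψ x x = 0)
    -- a Lie algebra `g` of symplectic similitudes
    (g : Submodule K (Module.End K V))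
    (hLie : ∀ X ∈ g, ∀ Y ∈ g, X * Y - Y * X ∈ g)
    (hgsp : ∀ X ∈ g, ∃ c : K, ∀ x y, ψ (X x) y + ψ x (X y) = c * ψ x y)
    -- acting irreducibly
    (hirr : ∀ W : Submodule K V, (∀ X ∈ g, ∀ w ∈ W, X w ∈ W) → W = ⊥ ∨ W = ⊤)
    -- an idempotent
    (e : Module.End K V) (he : e ∈ g) (hee : e * e = e) (he0 : e ≠ 0) (he1 : e ≠ 1)
    -- a nonzero element of square zero
    (N : Module.End K V) (hN : N ∈ g) (hNN : N * N = 0) (hN0 : N ≠ 0)
    -- such that every ideal containing it contains all the commutators
    (hideal : ∀ I : Submodule K (Module.End K V), I ≤ g →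
      (∀ X ∈ g, ∀ Y ∈ I, X * Y - Y * X ∈ I) → N ∈ I → ∀ X ∈ g, ∀ Y ∈ g, X * Y - Y * X ∈ I) :
    (∀ X : Module.End K V, (∀ x y, ψ (X x) y + ψ x (X y) = 0) → X ∈ g) ∨
    (∃ m : ℕ, 5 ≤ m ∧ (m % 4 = 1 ∨ m % 4 = 2) ∧ Module.finrank K V = 2 ^ m ∧
      (4 * Module.finrank K (LinearMap.range N) = Module.finrank K V ∨
        2 * Module.finrank K (LinearMap.range N) = Module.finrank K V)) ∨
    (∃ k : ℕ, Odd k ∧ 3 ≤ k ∧ Module.finrank K V = (2 * k).choose k ∧
      Module.finrank K (LinearMap.range N) = (2 * k - 2).choose (k - 1)) := by
  have S : Setup ψ (spart ψ g) := spart_setup hnd halt hLie hgsp ⟨inferInstance, hirr⟩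
  have hNs : N ∈ spart ψ g := nilp_mem hnd hgsp hN hNN
  have hS : Simp (spart ψ g) := simp_of S hNs hNN hN0 fun I hI hI' hNI =>
    ideal_of_g S hLie hgsp hN hNs hNN hideal hI hI' hNI
  have hgen : Gen (spart ψ g) := by
    rcases idem_mem hnd hgsp he hee with h | h | h
    · exact absurd h he0
    · exact absurd h he1
    · refine gen_of_half S hS h ?_
      simp only [sub_mul, mul_sub, smul_mul_assoc, mul_smul_comm, one_mul, mul_one, hee]
      match_scalars <;> norm_num
  rcases main S hgen hS hNs hNN hN0 with h1 | h1 | h1
  · left
    intro X hX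
    exact sp_le_of_spart hnd halt hLie S h1 (fun x y => eq_neg_of_add_eq_zero_left (hX x y))
  · exact Or.inr (Or.inl h1)
  · exact Or.inr (Or.inr h1)

end Pool.Agent.Results.MP_09799c_ag.BadPlace
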