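import Pool.Agent.Helper29.F5.Gen

/-!
# MP_09799c_ag: one eigenvalue without four-term relations forces full monodromy

`V` is a symplectic space over an algebraically closed field of characteristic zero and `g` is a Lie
algebra of symplectic similitudes of `V` over which `V` is semisimple. `V'` is a `g`-stable subspace
on which the form is nondegenerate, and `L` is the Lie algebra of the infinitesimal isometries of
`V` which commute with all the `g`-endomorphisms of `V` and kill the orthogonal complement of `V'`.

Suppose that for every irreducible `g`-stable subspace `W` of `V'`, of dimension at least two, there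
are a similitude `γ` of `V` (with multiplier `c`) which normalizes `g` and commutes with the
`g`-endomorphisms of `V`, and a homomorphism `v` from the multiplicative group of the field to an
abelian group, such that `γ` has eigenvalues `α`, `δ` on `W` with `v δ ≠ v α`, where `α` has
algebraic multiplicity one on `V`, and such that the only relations

`α * ν = β * μ`, with `β` an eigenvalue of `γ` on `W`, `v β ≠ v α`, and `μ`, `ν` eigenvalues of `γ`
on one and the same irreducible `g`-stable subspace `U` of `V`,

are the trivial ones: `μ = α` or `α * ν = c` (if `W` has dimension greater than four, then relations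
in which two of `c / β`, `ν`, `c / μ` are equal to `α` are allowed as well). Then `g` contains the
derived algebra of `L`.

In the application `g` is the Lie algebra of the `ℓ`-adic monodromy group of an abelian variety, `γ`
is a Frobenius element or an inertia element at some place, and `v` is the weight, a `p`-adic
valuation, or the identity. For the weight, at a place of semistable reduction which has a toric and
an abelian part, and for suitable valuations at a place of good reduction with slopes `0`, `1/2`,
`1`, the condition on the relations is automatic.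
-/

namespace Pool.Agent.Results.MP_09799c_ag.FourTermRelations

/-- `U` is stable under `g`. -/
def Stable {K V : Type*} [Field K] [AddCommGroup V] [Module K V]
    (g : Submodule K (Module.End K V)) (U : Submodule K V) : Prop :=
  ∀ X ∈ g, ∀ x ∈ U, X x ∈ U

/-- `U` is an irreducible `g`-stable subspace. -/
def Irreducible {K V : Type*} [Field K] [AddCommGroup V] [Module K V]
    (g : Submodule K (Module.End K V)) (U : Submodule K V) : Prop :=
  Stable g U ∧ U ≠ ⊥ ∧ ∀ U' ≤ U, Stable g U' → U' = ⊥ ∨ U' = U

/-- `β` is an eigenvalue of `γ`, with an eigenvector in `U`. -/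
def EigenvalueOn {K V : Type*} [Field K] [AddCommGroup V] [Module K V]
    (γ : V ≃ₗ[K] V) (U : Submodule K V) (β : K) : Prop :=
  ∃ x ∈ U, x ≠ 0 ∧ γ x = β • x

theorem result {K V : Type*} [Field K] [IsAlgClosed K] [CharZero K] [AddCommGroup V] [Module K V]
    [FiniteDimensional K V]
    -- a symplectic form
    (ψ : LinearMap.BilinForm K V) (hnd : ψ.Nondegenerate) (halt : ∀ x, ψ x x = 0)
    -- a Lie algebra `g` of symplectic similitudes
    (g : Submodule K (Module.End K V))
    (hLie : ∀ X ∈ g, ∀ Y ∈ g, X * Y - Y * X ∈ g)
    (hgsp : ∀ X ∈ g, ∃ t : K, ∀ x y, ψ (X x) y + ψ x (X y) = t * ψ x y)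
    -- over which `V` is semisimple
    (hss : ∀ U : Submodule K V, Stable g U → ∃ U' : Submodule K V, Stable g U' ∧ IsCompl U U')
    -- a `g`-stable subspace `V'` on which the form is nondegenerate
    (V' : Submodule K V) (hV' : Stable g V') (hV'nd : ∀ x ∈ V', (∀ y ∈ V', ψ x y = 0) → x = 0)
    -- an abelian group, where the homomorphisms `v` take their values
    {A : Type*} [AddCommGroup A]
    -- for every irreducible `W` in `V'`
    (H : ∀ W ≤ V', Irreducible g W → 2 ≤ Module.finrank K W →
      ∃ (γ : V ≃ₗ[K] V) (c : K) (v : K → A) (α δ : K),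
        -- `γ` is a similitude with multiplier `c`
        (∀ x y, ψ (γ x) (γ y) = c * ψ x y) ∧
        -- which normalizes `g`
        (∀ X ∈ g, (γ : V →ₗ[K] V) ∘ₗ X ∘ₗ (γ.symm : V →ₗ[K] V) ∈ g) ∧
        -- and commutes with the `g`-endomorphisms of `V`
        (∀ T : Module.End K V, (∀ Z ∈ g, T * Z = Z * T) → ∀ x, γ (T x) = T (γ x)) ∧
        -- `v` is a homomorphism
        (∀ x y, x ≠ 0 → y ≠ 0 → v (x * y) = v x + v y) ∧
        -- `α` is an eigenvalue on `W`, of algebraic multiplicity one on `V`
        EigenvalueOn γ W α ∧
        Module.finrank K (Module.End.maxGenEigenspace (γ : V →ₗ[K] V) α) = 1 ∧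
        -- `δ` is an eigenvalue on `W`
        EigenvalueOn γ W δ ∧ v δ ≠ v α ∧
        -- the relations `α ν = β μ` with `v β ≠ v α`
        ∀ U : Submodule K V, Irreducible g U → ∀ β μ ν : K, EigenvalueOn γ W β →
          EigenvalueOn γ U μ → EigenvalueOn γ U ν → v β ≠ v α → α * ν = β * μ →
          -- are trivial
          μ = α ∨ α * ν = c ∨
          -- or at least two of `c / β`, `ν`, `c / μ` are equal to `α`, and `dim W > 4`
          (4 < Module.finrank K W ∧
            ((α * β = c ∧ ν = α) ∨ (α * β = c ∧ α * μ = c) ∨ (ν = α ∧ α * μ = c))))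
    -- two infinitesimal isometries which kill the orthogonal complement of `V'` and commute with
    -- the `g`-endomorphisms of `V`
    (X Y : Module.End K V)
    (hX : ∀ x y, ψ (X x) y + ψ x (X y) = 0) (hX' : ∀ x, (∀ y ∈ V', ψ x y = 0) → X x = 0)
    (hXT : ∀ T : Module.End K V, (∀ Z ∈ g, T * Z = Z * T) → X * T = T * X)
    (hY : ∀ x y, ψ (Y x) y + ψ x (Y y) = 0) (hY' : ∀ x, (∀ y ∈ V', ψ x y = 0) → Y x = 0)
    (hYT : ∀ T : Module.End K V, (∀ Z ∈ g, T * Z = Z * T) → Y * T = T * Y) :
    -- their commutator lies in `g`
    X * Y - Y * X ∈ g := by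
  have d : Pool.Agent.Helper29.F5.Bas ψ g := ⟨hnd, halt, hLie, hgsp, hss⟩
  have hperp : ∀ x, x ∈ ψ.orthogonal V' ↔ ∀ y ∈ V', ψ x y = 0 := fun x =>
    Pool.Agent.Helper29.F5.mem_perp d
  refine Pool.Agent.Helper29.F5.general (A := A) d hV'
    (fun x hx hx' => hV'nd x hx ((hperp x).1 hx')) ?_
    (fun x y => eq_neg_of_add_eq_zero_left (hX x y)) (fun x y => eq_neg_of_add_eq_zero_left (hY x y))
    (fun x hx => hX' x ((hperp x).1 hx)) (fun x hx => hY' x ((hperp x).1 hx)) hXT hYT
  intro W hWV hW hirr h2
  obtain ⟨γ, c, v, α, δ, h1, h3, h4, h5, h6, h7, h8, h9, h10⟩ := H W hWV ⟨hW, hirr⟩ h2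
  exact ⟨γ, c, v, α, δ, h1, h3, h4, h5, h7, h6, h8, h9, fun U hU hUi => h10 U ⟨hU, hUi⟩⟩

end Pool.Agent.Results.MP_09799c_ag.FourTermRelations
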