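import Pool.Agent.Helper29.PA.Main

/-!
# MP_09799c_ag: the full Lefschetz group, from one place for each simple factor

`V` is a symplectic space over an algebraically closed field of characteristic zero and `g` is a Lie
algebra of symplectic similitudes of `V`, generated by its idempotents other than `0` and `1`, over
which `V` is semisimple. `X` is an infinitesimal isometry of `V` which commutes with all the
`g`-endomorphisms of `V`.

Suppose that every irreducible `g`-stable subspace `W` of `V` on which `X` does not vanish is mapped
by some `g`-endomorphism of `V` onto a subspace `W'` on which the form does not vanish and which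
satisfies one of the following conditions.

* `Full`: `g` induces on `W'` all the infinitesimal isometries of `W'`.
* `OddUnipotent`: some element of `g` has square zero on `W'`, and there its rank is one, two or
  odd.
* `OddSlopes`: there are a similitude of `W'`, with multiplier `c`, which normalizes the action of
  `g`, and a homomorphism `v` to the rational numbers, such that `2 v(ν) - v(c)` is an integer for
  every eigenvalue `ν`, the number `m` of eigenvalues for which it is odd is congruent to `2` modulo
  `4`, and `2 m` is not the dimension of `W'`.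
* `FreeEigenvalue`: there are a similitude of `W'`, with multiplier `c`, which normalizes the action
  of `g`, a homomorphism `v` to an abelian group, and eigenvalues `α` and `δ` with `v(δ) ≠ v(α)`,
  where `α` has algebraic multiplicity one, such that the only relations `α ν = β μ` between the
  eigenvalues, with `v(β) ≠ v(α)`, are the trivial ones.

Then `X` lies in `g`.

In the application `g` is the Lie algebra of the `ℓ`-adic monodromy group of an abelian variety `B`,
the idempotents are the (weak) Hodge cocharacters, and `X` lies in the Lie algebra of the Lefschetz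
group of a factor `B'` of `B` whose simple factors are of type I or II: `B` is arbitrary otherwise.
For each simple factor of `B'` one place is needed.
-/

namespace Pool.Agent.Results.MP_09799c_ag.ParityCriteria

section

variable {K V : Type*} [Field K] [AddCommGroup V] [Module K V]

/-- `U` is stable under `g`. -/
def Stable (g : Submodule K (Module.End K V)) (U : Submodule K V) : Prop :=
  ∀ X ∈ g, ∀ x ∈ U, X x ∈ U

/-- `U` is an irreducible `g`-stable subspace. -/
def Irreducible (g : Submodule K (Module.End K V)) (U : Submodule K V) : Prop :=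
  Stable g U ∧ U ≠ ⊥ ∧ ∀ U' ≤ U, Stable g U' → U' = ⊥ ∨ U' = U

/-- `g` induces on `W` all the infinitesimal isometries of `W`. -/
def Full (ψ : LinearMap.BilinForm K V) (g : Submodule K (Module.End K V))
    (W : Submodule K V) : Prop :=
  ∀ Z : Module.End K W, (∀ x y : W, ψ (Z x) y + ψ x (Z y) = 0) → ∃ Y ∈ g, ∀ x : W, (Z x : V) = Y x

/-- Some element of `g` has square zero on `W`, and there its rank is one, two or odd. -/
def OddUnipotent (g : Submodule K (Module.End K V)) (W : Submodule K V) : Prop :=
  ∃ N ∈ g, (∀ x ∈ W, N (N x) = 0) ∧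
    (Module.finrank K (W.map N) = 1 ∨ Module.finrank K (W.map N) = 2 ∨
      Odd (Module.finrank K (W.map N)))

/-- `γ` is a similitude of `W`, with multiplier `c`, which normalizes the action of `g` on `W`. -/
def Normalizing (ψ : LinearMap.BilinForm K V) (g : Submodule K (Module.End K V))
    (W : Submodule K V) (γ : W ≃ₗ[K] W) (c : K) : Prop :=
  (∀ x y : W, ψ (γ x) (γ y) = c * ψ x y) ∧
    ∀ X ∈ g, ∃ X' ∈ g, ∀ x y : W, X x = y → X' (γ x) = γ y

/-- The Newton polygon condition: the numbers `2 v ν - v c`, where `ν` is an eigenvalue of `γ`, are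
integers, and the number `m` of eigenvalues (with their algebraic multiplicities) for which this
integer is odd is `2` modulo `4` and is not half of the dimension of `W`. -/
def OddSlopes (ψ : LinearMap.BilinForm K V) (g : Submodule K (Module.End K V))
    (W : Submodule K V) : Prop :=
  ∃ (γ : W ≃ₗ[K] W) (c : K) (v : K → ℚ) (m : ℕ), Normalizing ψ g W γ c ∧
    -- `v` is a homomorphism
    (∀ x y, x ≠ 0 → y ≠ 0 → v (x * y) = v x + v y) ∧
    (∀ ν : K, Module.End.HasEigenvalue (γ : W →ₗ[K] W) ν → ∃ n : ℤ, 2 * v ν - v c = n) ∧
    Module.finrank K (⨆ (ν : K) (_ : ∃ n : ℤ, Odd n ∧ 2 * v ν - v c = n),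
      Module.End.maxGenEigenspace (γ : W →ₗ[K] W) ν : Submodule K W) = m ∧
    m % 4 = 2 ∧ 2 * m ≠ Module.finrank K W

/-- A simple eigenvalue `α` of `γ` without nontrivial relations `α ν = β μ` for which
`v β ≠ v α`, where `v` is a homomorphism to the abelian group `A`. -/
def FreeEigenvalue (ψ : LinearMap.BilinForm K V) (g : Submodule K (Module.End K V)) (A : Type*)
    [AddCommGroup A] (W : Submodule K V) : Prop :=
  ∃ (γ : W ≃ₗ[K] W) (c : K) (v : K → A) (α δ : K), Normalizing ψ g W γ c ∧
    -- `v` is a homomorphism
    (∀ x y, x ≠ 0 → y ≠ 0 → v (x * y) = v x + v y) ∧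
    -- `α` is an eigenvalue of algebraic multiplicity one
    Module.finrank K (Module.End.maxGenEigenspace (γ : W →ₗ[K] W) α) = 1 ∧
    -- `δ` is an eigenvalue
    Module.End.HasEigenvalue (γ : W →ₗ[K] W) δ ∧ v δ ≠ v α ∧
    -- the relations `α ν = β μ` with `v β ≠ v α`
    ∀ β μ ν : K, Module.End.HasEigenvalue (γ : W →ₗ[K] W) β →
      Module.End.HasEigenvalue (γ : W →ₗ[K] W) μ → Module.End.HasEigenvalue (γ : W →ₗ[K] W) ν →
      v β ≠ v α → α * ν = β * μ →
      -- are trivial
      μ = α ∨ α * ν = c ∨
      -- or at least two of `c / β`, `ν`, `c / μ` are equal to `α`, and `dim W > 4`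
      (4 < Module.finrank K W ∧
        ((α * β = c ∧ ν = α) ∨ (α * β = c ∧ α * μ = c) ∨ (ν = α ∧ α * μ = c)))

end

theorem result {K V : Type*} [Field K] [IsAlgClosed K] [CharZero K] [AddCommGroup V] [Module K V]
    [FiniteDimensional K V]
    -- a symplectic form
    (ψ : LinearMap.BilinForm K V) (hnd : ψ.Nondegenerate) (halt : ∀ x, ψ x x = 0)
    -- a Lie algebra `g` of symplectic similitudes
    (g : Submodule K (Module.End K V))
    (hLie : ∀ X ∈ g, ∀ Y ∈ g, X * Y - Y * X ∈ g)
    (hgsp : ∀ X ∈ g, ∃ t : K, ∀ x y, ψ (X x) y + ψ x (X y) = t * ψ x y)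
    -- over which `V` is semisimple
    (hss : ∀ U : Submodule K V, Stable g U → ∃ U' : Submodule K V, Stable g U' ∧ IsCompl U U')
    -- and which is generated by its idempotents other than `0` and `1`
    (hgen : ∀ g' : Submodule K (Module.End K V), (∀ X ∈ g', ∀ Y ∈ g', X * Y - Y * X ∈ g') →
      (∀ e ∈ g, e * e = e → e ≠ 0 → e ≠ 1 → e ∈ g') → g ≤ g')
    -- an infinitesimal isometry which commutes with the `g`-endomorphisms of `V`
    (X : Module.End K V) (hX : ∀ x y, ψ (X x) y + ψ x (X y) = 0)
    (hXT : ∀ T : Module.End K V, (∀ Z ∈ g, T * Z = Z * T) → X * T = T * X)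
    -- an abelian group, where some of the homomorphisms `v` take their values
    {A : Type*} [AddCommGroup A]
    -- every irreducible `W` on which `X` does not vanish
    (H : ∀ W : Submodule K V, Irreducible g W → (∃ x ∈ W, X x ≠ 0) →
      -- is mapped by some `g`-endomorphism `T`
      ∃ T : Module.End K V, (∀ Z ∈ g, T * Z = Z * T) ∧
        -- onto a subspace on which `ψ` does not vanish
        (∃ x ∈ W, ∃ y ∈ W, ψ (T x) (T y) ≠ 0) ∧
        -- and which satisfies one of the four conditions
        (Full ψ g (W.map T) ∨ OddUnipotent g (W.map T) ∨ OddSlopes ψ g (W.map T) ∨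
          FreeEigenvalue ψ g A (W.map T))) :
    X ∈ g := by
  have d : Pool.Agent.Helper29.F5.Bas ψ g := ⟨hnd, halt, hLie, hgsp, hss⟩
  exact Pool.Agent.Helper29.PA.par d hgen (A := A) _ X ⊥
    (fun Z _ x hx => by
      rw [Submodule.mem_bot] at hx ⊢
      rw [hx, map_zero])
    (fun x hx => by
      rw [Submodule.mem_bot] at hx
      rw [hx, map_zero])
    (Nat.le_add_left _ _) (fun x y => eq_neg_of_add_eq_zero_left (hX x y)) hXT
    (fun W hW hirr => H W ⟨hW, hirr⟩)

end Pool.Agent.Results.MP_09799c_ag.ParityCriteria
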